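import Pool.Agent.LKT.Stmts

/-!
# Squad LKT, row RCH: reach of four consecutive unit links
-/

set_option autoImplicit false

namespace Pool.Agent.LKT.H44

open Pool.Agent.LCK

/-- The 3 x 3 determinant. -/
noncomputable def t3 (u v w : E3) : ℝ :=
  u 0 * (v 1 * w 2 - v 2 * w 1) - u 1 * (v 0 * w 2 - v 2 * w 0) + u 2 * (v 0 * w 1 - v 1 * w 0)

theorem d4_aff (p q r s : E3) :
    d4 ![1, p 0, p 1, p 2] ![1, q 0, q 1, q 2] ![1, r 0, r 1, r 2] ![1, s 0, s 1, s 2] =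
      t3 (q - p) (r - q) (s - r) := by
  unfold d4 t3
  simp [Matrix.det_succ_row_zero, Fin.sum_univ_succ, Fin.succAbove]
  ring

theorem t3_add_right (u v w w' : E3) : t3 u v (w + w') = t3 u v w + t3 u v w' := by
  unfold t3
  simp only [PiLp.add_apply]
  ring

theorem t3_add_left (u u' v w : E3) : t3 (u + u') v w = t3 u v w + t3 u' v w := by
  unfold t3
  simp only [PiLp.add_apply]
  ring

theorem cramer (u v w y : E3) :
    t3 v w y • u - t3 u w y • v + t3 u v y • w - t3 u v w • y = 0 := by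
  ext i
  unfold t3
  fin_cases i <;>
  · simp
    ring

theorem unit_err (u : E3) (hu : u ≠ 0) : ‖u - (‖u‖⁻¹ : ℝ) • u‖ = |‖u‖ - 1| := by
  have h0 : ‖u‖ ≠ 0 := norm_ne_zero_iff.mpr hu
  have h1 : u - (‖u‖⁻¹ : ℝ) • u = (1 - ‖u‖⁻¹) • u := by
    rw [sub_smul, one_smul]
  rw [h1, norm_smul, Real.norm_eq_abs]
  have h2 : ‖u‖ - 1 = (1 - ‖u‖⁻¹) * ‖u‖ := by
    field_simp
  rw [h2, abs_mul, abs_norm]

theorem norm_unit (u : E3) (hu : u ≠ 0) : ‖(‖u‖⁻¹ : ℝ) • u‖ = 1 := by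
  have h0 : ‖u‖ ≠ 0 := norm_ne_zero_iff.mpr hu
  rw [norm_smul, norm_inv, norm_norm, inv_mul_cancel₀ h0]

/-- Four vectors with a positive linear relation. -/
theorem reach (hq : QuaStmt) (u v w y : E3) (a b c d : ℝ) (ha : 0 < a) (hb : 0 < b) (hc : 0 < c)
    (hd : 0 < d) (h : a • u + b • v + c • w + d • y = 0) (hu : u ≠ 0) (hv : v ≠ 0) (hw : w ≠ 0)
    (hy : y ≠ 0) :
    ‖u + v + w + y‖ ≤ 2 + |‖u‖ - 1| + |‖v‖ - 1| + |‖w‖ - 1| + |‖y‖ - 1| := by
  have hu0 : 0 < ‖u‖ := norm_pos_iff.mpr hu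
  have hv0 : 0 < ‖v‖ := norm_pos_iff.mpr hv
  have hw0 : 0 < ‖w‖ := norm_pos_iff.mpr hw
  have hy0 : 0 < ‖y‖ := norm_pos_iff.mpr hy
  have hsm : ∀ (t : ℝ) (z : E3), z ≠ 0 → (t * ‖z‖) • ((‖z‖⁻¹ : ℝ) • z) = t • z := by
    intro t z hz
    have h0 : ‖z‖ ≠ 0 := norm_ne_zero_iff.mpr hz
    rw [smul_smul, mul_assoc, mul_inv_cancel₀ h0, mul_one]
  have h1 := hq ((‖u‖⁻¹ : ℝ) • u) (-((‖v‖⁻¹ : ℝ) • v)) ((‖w‖⁻¹ : ℝ) • w) (-((‖y‖⁻¹ : ℝ) • y))
    (a * ‖u‖) (b * ‖v‖) (c * ‖w‖) (d * ‖y‖) (norm_unit u hu)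
    (by rw [norm_neg]; exact norm_unit v hv) (norm_unit w hw)
    (by rw [norm_neg]; exact norm_unit y hy) (by positivity) (by positivity) (by positivity)
    (by positivity) (by
      rw [smul_neg, smul_neg, hsm a u hu, hsm b v hv, hsm c w hw, hsm d y hy]
      have h2 : a • u + c • w - (-(b • v) + -(d • y)) = 0 := by
        rw [← h]
        abel
      exact sub_eq_zero.mp h2)
  have h3 : u + v + w + y = ((‖u‖⁻¹ : ℝ) • u - -((‖v‖⁻¹ : ℝ) • v) + (‖w‖⁻¹ : ℝ) • w -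
      -((‖y‖⁻¹ : ℝ) • y)) + (u - (‖u‖⁻¹ : ℝ) • u) + (v - (‖v‖⁻¹ : ℝ) • v) +
      (w - (‖w‖⁻¹ : ℝ) • w) + (y - (‖y‖⁻¹ : ℝ) • y) := by
    abel
  rw [h3]
  refine (norm_add_le _ _).trans (add_le_add ?_ (unit_err y hy).le)
  refine (norm_add_le _ _).trans (add_le_add ?_ (unit_err w hw).le)
  refine (norm_add_le _ _).trans (add_le_add ?_ (unit_err v hv).le)
  exact (norm_add_le _ _).trans (add_le_add h1 (unit_err u hu).le)

/-- Signs of the 3 x 3 determinants give the reach. -/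
theorem reach_det (hq : QuaStmt) (u v w y : E3) (s : ℝ) (_hs : s ≠ 0)
    (h1 : 0 < s * t3 u v w) (h2 : s * t3 u v y < 0) (h3 : 0 < s * t3 u w y)
    (h4 : s * t3 v w y < 0) :
    ‖u + v + w + y‖ ≤ 2 + |‖u‖ - 1| + |‖v‖ - 1| + |‖w‖ - 1| + |‖y‖ - 1| := by
  have hu : u ≠ 0 := by
    rintro rfl
    simp [t3] at h1
  have hv : v ≠ 0 := by
    rintro rfl
    simp [t3] at h1
  have hw : w ≠ 0 := by
    rintro rfl
    simp [t3] at h1
  have hy : y ≠ 0 := by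
    rintro rfl
    simp [t3] at h2
  have hc := cramer u v w y
  refine reach hq u v w y (-(s * t3 v w y)) (s * t3 u w y) (-(s * t3 u v y)) (s * t3 u v w)
    (by linarith) h3 (by linarith) h1 ?_ hu hv hw hy
  have h5 : -(s * t3 v w y) • u + (s * t3 u w y) • v + -(s * t3 u v y) • w + (s * t3 u v w) • y =
      (-s) • (t3 v w y • u - t3 u w y • v + t3 u v y • w - t3 u v w • y) := by
    module
  rw [h5, hc, smul_zero]

/-- The bracket of four inner vertices. -/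
theorem D_inner (x : Fin 8 → E3) (a b c d : Fin 8) (ha : ¬ (a = 0 ∨ a = 7))
    (hb : ¬ (b = 0 ∨ b = 7)) (hc : ¬ (c = 0 ∨ c = 7)) (hd : ¬ (d = 0 ∨ d = 7)) :
    D x a b c d = t3 (x b - x a) (x c - x b) (x d - x c) := by
  unfold D hom
  rw [if_neg ha, if_neg hb, if_neg hc, if_neg hd]
  exact d4_aff _ _ _ _

/-- Row RCH. -/
theorem rch (_h1 : CrmStmt) (h2 : QuaStmt) : RchStmt := by
  intro x hx
  have f30 : 0 < F 30 x := hx 30 (by norm_num)
  have f31 : 0 < F 31 x := hx 31 (by norm_num)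
  have f38 : 0 < F 38 x := hx 38 (by norm_num)
  have f44 : 0 < F 44 x := hx 44 (by norm_num)
  have f45 : 0 < F 45 x := hx 45 (by norm_num)
  have f50 : 0 < F 50 x := hx 50 (by norm_num)
  have f54 : 0 < F 54 x := hx 54 (by norm_num)
  have g30 : 0 < D x 1 2 3 4 := by simpa [F, tb] using f30
  have g31 : D x 1 2 3 5 < 0 := by simpa [F, tb] using f31
  have g38 : 0 < D x 1 3 4 5 := by simpa [F, tb] using f38
  have g44 : D x 2 3 4 5 < 0 := by simpa [F, tb] using f44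
  have g45 : 0 < D x 2 3 4 6 := by simpa [F, tb] using f45
  have g50 : D x 2 4 5 6 < 0 := by simpa [F, tb] using f50
  have g54 : 0 < D x 3 4 5 6 := by simpa [F, tb] using f54
  rw [D_inner x _ _ _ _ (by decide) (by decide) (by decide) (by decide)] at g30 g31 g38 g44 g45 g50 g54
  have e35 : x 5 - x 3 = (x 4 - x 3) + (x 5 - x 4) := by abel
  have e13 : x 3 - x 1 = (x 2 - x 1) + (x 3 - x 2) := by abel
  have e46 : x 6 - x 4 = (x 5 - x 4) + (x 6 - x 5) := by abel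
  have e24 : x 4 - x 2 = (x 3 - x 2) + (x 4 - x 3) := by abel
  rw [e35, t3_add_right] at g31
  rw [e13, t3_add_left] at g38
  rw [e46, t3_add_right] at g45
  rw [e24, t3_add_left] at g50
  constructor
  · have h := reach_det h2 (x 2 - x 1) (x 3 - x 2) (x 4 - x 3) (x 5 - x 4) 1 one_ne_zero
      (by linarith) (by linarith) (by linarith) (by linarith)
    have e : x 2 - x 1 + (x 3 - x 2) + (x 4 - x 3) + (x 5 - x 4) = x 5 - x 1 := by abel
    rw [e] at h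
    exact h
  · have h := reach_det h2 (x 3 - x 2) (x 4 - x 3) (x 5 - x 4) (x 6 - x 5) (-1) (by norm_num)
      (by linarith) (by linarith) (by linarith) (by linarith)
    have e : x 3 - x 2 + (x 4 - x 3) + (x 5 - x 4) + (x 6 - x 5) = x 6 - x 2 := by abel
    rw [e] at h
    exact h

end Pool.Agent.LKT.H44
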